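import Pool.Agent.W2helper22.SpecWords

/-!
# Spectral self-affine measures with integer data have no overlap
-/

set_option autoImplicit false
open MeasureTheory Matrix Filter Topology

namespace Pool.Agent.W2helper22

variable {d : ℕ}

/-- A functional that does not vanish on nonzero integer vectors. -/
def Good (ξ : Fin d → ℝ) : Prop := ∀ v : Fin d → ℤ, v ≠ 0 → ∑ i, ξ i * (v i : ℝ) ≠ 0

theorem exists_good (d : ℕ) : ∃ ξ : Fin d → ℝ, Good ξ := by
  obtain ⟨θ, hθ⟩ : ∃ θ : ℝ, Transcendental ℤ θ := ⟨_, transcendental_liouvilleNumber (le_refl 2)⟩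
  refine ⟨fun i => θ ^ (i : ℕ), ?_⟩
  intro v hv h0
  let p : Polynomial ℤ := ∑ i : Fin d, Polynomial.C (v i) * Polynomial.X ^ (i : ℕ)
  have hp : Polynomial.aeval θ p = 0 := by
    simp only [p, map_sum, map_mul, map_pow, Polynomial.aeval_X, Polynomial.aeval_C]
    rw [← h0]
    apply Finset.sum_congr rfl
    intro i _
    simp [mul_comm]
  have hp0 : p = 0 := by
    by_contra hne
    exact hθ ⟨p, hne, hp⟩
  apply hv
  ext i
  have := congrArg (fun q => Polynomial.coeff q (i : ℕ)) hp0
  simp only [p, Polynomial.finsetSum_coeff, Polynomial.coeff_C_mul, Polynomial.coeff_X_pow,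
    Polynomial.coeff_zero] at this
  rw [Finset.sum_eq_single i] at this
  · simpa using this
  · intro j _ hji
    have : (i : ℕ) ≠ (j : ℕ) := fun h => hji (Fin.ext h.symm)
    simp [this]
  · simp

/-- The value of the functional `ξ` at an integer vector. -/
def ev (ξ : Fin d → ℝ) (v : Fin d → ℤ) : ℝ := ∑ i, ξ i * (v i : ℝ)

theorem ev_add (ξ : Fin d → ℝ) (v w : Fin d → ℤ) : ev ξ (v + w) = ev ξ v + ev ξ w := by
  simp only [ev, Pi.add_apply, Int.cast_add, mul_add, Finset.sum_add_distrib]

theorem ev_mulVec (ξ : Fin d → ℝ) (R : Matrix (Fin d) (Fin d) ℤ) (v : Fin d → ℤ) :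
    ev ξ (R *ᵥ v) = ev (ξ ᵥ* (R.map (Int.castRingHom ℝ))) v := by
  simp only [ev, Matrix.mulVec, Matrix.vecMul, dotProduct, Int.cast_sum, Int.cast_mul,
    Finset.mul_sum, Finset.sum_mul]
  rw [Finset.sum_comm]
  apply Finset.sum_congr rfl
  intro i _
  apply Finset.sum_congr rfl
  intro j _
  simp only [Matrix.map_apply, Int.coe_castRingHom]
  ring

theorem good_mul {ξ : Fin d → ℝ} (hξ : Good ξ) {R : Matrix (Fin d) (Fin d) ℤ} (hR : R.det ≠ 0) :
    Good (ξ ᵥ* (R.map (Int.castRingHom ℝ))) := by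
  intro v hv h0
  have h1 := ev_mulVec ξ R v
  have h2 : ev (ξ ᵥ* (R.map (Int.castRingHom ℝ))) v = 0 := h0
  rw [h2] at h1
  have h3 : R *ᵥ v ≠ 0 := by
    intro h
    exact hv (Matrix.eq_zero_of_mulVec_eq_zero hR h)
  exact hξ _ h3 h1

theorem ev_ne {ξ : Fin d → ℝ} (hξ : Good ξ) {v w : Fin d → ℤ} (h : v ≠ w) : ev ξ v ≠ ev ξ w := by
  intro h0
  have h1 : v - w ≠ 0 := sub_ne_zero.mpr h
  apply hξ _ h1
  have h2 : ev ξ v = ev ξ (v - w) + ev ξ w := by
    rw [← ev_add]; simp
  have : ev ξ (v - w) = 0 := by linarith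
  exact this

/-- There is a word at which the functional has a strict maximum. -/
theorem exists_top {R : Matrix (Fin d) (Fin d) ℤ} (hR : R.det ≠ 0) {B : Finset (Fin d → ℤ)}
    (hB : B.Nonempty) (k : ℕ) : ∀ ξ : Fin d → ℝ, Good ξ → ∃ w ∈ words B k, ∀ v ∈ words B k,
      v ≠ w → ev ξ (gam R v) < ev ξ (gam R w) := by
  induction k with
  | zero =>
    intro ξ _
    refine ⟨[], by simp [words], ?_⟩
    intro v hv hne
    simp only [words, Finset.mem_singleton] at hv
    exact absurd hv hne
  | succ k ih =>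
    intro ξ hξ
    obtain ⟨w, hw, hmax⟩ := ih _ (good_mul hξ hR)
    obtain ⟨b, hb, hbmax⟩ := B.exists_max_image (ev ξ) hB
    refine ⟨b :: w, mem_words_succ.mpr ⟨b, hb, w, hw, rfl⟩, ?_⟩
    intro v hv hne
    obtain ⟨c, hc, u, hu, rfl⟩ := mem_words_succ.mp hv
    have e1 : ∀ (c : Fin d → ℤ) (u : List (Fin d → ℤ)), ev ξ (gam R (c :: u))
        = ev ξ c + ev (ξ ᵥ* (R.map (Int.castRingHom ℝ))) (gam R u) := by
      intro c u
      rw [← ev_mulVec, ← ev_add]
      rfl
    rw [e1, e1]
    have h1 := hbmax c hc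
    by_cases hu' : u = w
    · subst hu'
      have hcb : c ≠ b := by
        rintro rfl
        exact hne rfl
      have h2 : ev ξ c < ev ξ b := lt_of_le_of_ne h1 (ev_ne hξ hcb)
      linarith
    · have h2 := hmax u hu hu'
      linarith

/-- The essential supremum of a bounded functional. -/
theorem exists_esssup (μ : Measure (Fin d → ℝ)) [IsProbabilityMeasure μ]
    (f : (Fin d → ℝ) → ℝ) (C : ℝ) (hC : μ {x | C < f x} = 0) :
    ∃ m : ℝ, μ {x | m < f x} = 0 ∧ ∀ c < m, 0 < μ {x | c < f x} := by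
  set S : Set ℝ := {c | μ {x | c < f x} = 0} with hS
  have hbd : BddBelow S := by
    have h1 : ∃ n : ℕ, μ {x | -(n : ℝ) < f x} ≠ 0 := by
      by_contra hcon
      push Not at hcon
      have h2 : μ (⋃ n : ℕ, {x | -(n : ℝ) < f x}) = 0 := measure_iUnion_null hcon
      have h3 : (⋃ n : ℕ, {x | -(n : ℝ) < f x}) = Set.univ := by
        ext x
        simp only [Set.mem_iUnion, Set.mem_ofPred_eq, Set.mem_univ, iff_true]
        obtain ⟨n, hn⟩ := exists_nat_gt (-(f x))
        exact ⟨n, by linarith⟩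
      rw [h3, measure_univ] at h2
      exact one_ne_zero h2
    obtain ⟨n, hn⟩ := h1
    refine ⟨-(n : ℝ), fun c hc => ?_⟩
    by_contra hlt
    push Not at hlt
    apply hn
    have hc' : μ {x | c < f x} = 0 := hc
    exact measure_mono_null (fun x (hx : -(n : ℝ) < f x) => lt_trans hlt hx) hc'
  have hne : S.Nonempty := ⟨C, hC⟩
  refine ⟨sInf S, ?_, ?_⟩
  · have h1 : {x | sInf S < f x} = ⋃ n : ℕ, {x | sInf S + 1 / ((n : ℝ) + 1) < f x} := by
      ext x
      simp only [Set.mem_ofPred_eq, Set.mem_iUnion]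
      constructor
      · intro hx
        obtain ⟨n, hn⟩ := exists_nat_one_div_lt (sub_pos.mpr hx)
        exact ⟨n, by linarith⟩
      · rintro ⟨n, hn⟩
        have : (0 : ℝ) < 1 / ((n : ℝ) + 1) := by positivity
        linarith
    rw [h1]
    apply measure_iUnion_null
    intro n
    have hpos : (0 : ℝ) < 1 / ((n : ℝ) + 1) := by positivity
    obtain ⟨c, hc, hcl⟩ := exists_lt_of_csInf_lt hne (lt_add_of_pos_right (sInf S) hpos)
    have hc' : μ {x | c < f x} = 0 := hc
    exact measure_mono_null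
      (fun x (hx : sInf S + 1 / ((n : ℝ) + 1) < f x) => lt_trans hcl hx) hc'
  · intro c hc
    rw [pos_iff_ne_zero]
    intro h0
    exact absurd (csInf_le hbd (show c ∈ S from h0)) (not_le.mpr hc)

variable {R : Matrix (Fin d) (Fin d) ℤ} {B : Finset (Fin d → ℤ)}
  {φ : (Fin d → ℤ) → (Fin d → ℝ) → (Fin d → ℝ)} {μ : Measure (Fin d → ℝ)}

/-- The value of the functional at a real vector. -/
def evr (ξ x : Fin d → ℝ) : ℝ := ∑ i, ξ i * x i

theorem evr_add (ξ x y : Fin d → ℝ) : evr ξ (x + y) = evr ξ x + evr ξ y := by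
  simp only [evr, Pi.add_apply, mul_add, Finset.sum_add_distrib]

theorem continuous_evr (ξ : Fin d → ℝ) : Continuous (evr ξ) := by
  unfold evr
  fun_prop

/-- In a spectral self-affine measure different words of the same length have different integer
vectors. -/
theorem SA.gam_injOn (h : SA R B φ μ)
    (Λ : Set (Fin d → ℝ)) (e : Λ → Lp ℂ 2 μ)
    (he : ∀ l : Λ, (e l : (Fin d → ℝ) → ℂ) =ᵐ[μ] expo (l : Fin d → ℝ))
    (hon : Orthonormal ℂ e)
    (hsp : (Submodule.span ℂ (Set.range e)).topologicalClosure = ⊤)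
    {T : Set (Fin d → ℝ)} (hTc : IsCompact T) (hTn : T.Nonempty)
    (hT : T = ⋃ b ∈ B, φ b '' T) (k : ℕ) : Set.InjOn (gam R) (words B k : Set _) := by
  intro w1 hw1 w2 hw2 hcol
  by_contra hne
  have hp := h.hp
  have hw1 : w1 ∈ words B k := hw1
  have hw2 : w2 ∈ words B k := hw2
  have hdet := det_ne_zero R h.hR
  obtain ⟨ξ, hξ⟩ := exists_good d
  obtain ⟨w, hw, hmax⟩ := exists_top hdet (Finset.card_pos.mp h.card_pos) k ξ hξ
  -- the gap
  obtain ⟨δ, hδ, hgap⟩ : ∃ δ : ℝ, 0 < δ ∧ ∀ v ∈ words B k, v ≠ w →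
      ev ξ (gam R v) + δ ≤ ev ξ (gam R w) := by
    rcases ((words B k).erase w).eq_empty_or_nonempty with hemp | hnemp
    · refine ⟨1, one_pos, fun v hv hvw => ?_⟩
      have : v ∈ (words B k).erase w := Finset.mem_erase.mpr ⟨hvw, hv⟩
      rw [hemp] at this
      simp at this
    · obtain ⟨u, hu, humax⟩ := Finset.exists_max_image _ (fun v => ev ξ (gam R v)) hnemp
      rw [Finset.mem_erase] at hu
      refine ⟨ev ξ (gam R w) - ev ξ (gam R u), sub_pos.mpr (hmax u hu.2 hu.1), fun v hv hvw => ?_⟩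
      have := humax v (Finset.mem_erase.mpr ⟨hvw, hv⟩)
      linarith
  -- essential supremum
  obtain ⟨C, hC⟩ : ∃ C : ℝ, μ {x | C < evr ξ x} = 0 := by
    obtain ⟨C, hC⟩ := (hTc.image (continuous_evr ξ)).bddAbove
    refine ⟨C, measure_mono_null ?_ (h.measure_compl hTc hTn hT)⟩
    intro x hx hxT
    exact absurd (hC ⟨x, hxT, rfl⟩) (not_le.mpr hx)
  obtain ⟨m, hm0, hmpos⟩ := exists_esssup μ (evr ξ) C hC
  -- the maps
  set A := (R.map (Int.castRingHom ℝ))⁻¹ with hA
  set Rr := R.map (Int.castRingHom ℝ) with hRr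
  have hRA : Rr * A = 1 := Matrix.mul_nonsing_inv _ h.det_real
  have hRAk : Rr ^ k * A ^ k = 1 := by
    rw [← (show Commute Rr A from by
      rw [commute_iff_eq, hRA, Matrix.nonsing_inv_mul _ h.det_real]).mul_pow, hRA, one_pow]
  have hcast : ∀ v : List (Fin d → ℤ), evr ξ (fun i => (gam R v i : ℝ)) = ev ξ (gam R v) :=
    fun v => rfl
  have hsigR : ∀ v ∈ words B k, ∀ x, evr ξ ((Rr ^ k) *ᵥ (sig φ v x))
      = evr ξ x + ev ξ (gam R v) := by
    intro v hv x
    rw [h.sig_eq hv, Matrix.mulVec_mulVec, hRAk, Matrix.one_mulVec, evr_add, hcast]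
  set F : Set (Fin d → ℝ) := {x | m + ev ξ (gam R w) - δ < evr ξ ((Rr ^ k) *ᵥ x)} with hF
  have hcF : Continuous (fun x : Fin d → ℝ => evr ξ ((Rr ^ k) *ᵥ x)) :=
    (continuous_evr ξ).comp (by fun_prop)
  have hFm : MeasurableSet F := (isOpen_lt continuous_const hcF).measurableSet
  -- other pieces do not charge F
  have hnull : ∀ v ∈ words B k, v ≠ w → ∀ E : Set (Fin d → ℝ),
      μ (sig φ v ⁻¹' (E ∩ F)) = 0 := by
    intro v hv hvw E
    refine measure_mono_null ?_ hm0
    intro x hx
    have hx2 : m + ev ξ (gam R w) - δ < evr ξ ((Rr ^ k) *ᵥ (sig φ v x)) := hx.2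
    rw [hsigR v hv] at hx2
    have := hgap v hv hvw
    show m < evr ξ x
    linarith
  have hB0 : (B.card : ENNReal) ≠ 0 := by
    have := h.card_pos
    simp only [ne_eq, Nat.cast_eq_zero]
    omega
  have hFpos : 0 < μ F := by
    rw [h.measure_eq k hFm]
    have h1 : 0 < μ (sig φ w ⁻¹' F) := by
      refine lt_of_lt_of_le (hmpos (m - δ) (by linarith)) (measure_mono ?_)
      intro x hx
      have hx2 : m - δ < evr ξ x := hx
      show m + ev ξ (gam R w) - δ < evr ξ ((Rr ^ k) *ᵥ (sig φ w x))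
      rw [hsigR w hw]
      linarith
    have h2 : μ (sig φ w ⁻¹' F) ≤ ∑ v ∈ words B k, μ (sig φ v ⁻¹' F) :=
      Finset.single_le_sum (f := fun v => μ (sig φ v ⁻¹' F)) (fun _ _ => zero_le) hw
    apply ENNReal.mul_pos
    · apply pow_ne_zero
      exact ENNReal.inv_ne_zero.mpr (ENNReal.natCast_ne_top _)
    · exact (lt_of_lt_of_le h1 h2).ne'
  -- the translation
  set a : Fin d → ℝ := (A ^ k) *ᵥ ((fun i => (gam R w1 i : ℝ)) - (fun i => (gam R w i : ℝ)))
    with ha
  have htr : ∀ v ∈ words B k, gam R v = gam R w1 → ∀ x, sig φ v x = sig φ w x + a := by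
    intro v hv hvg x
    rw [h.sig_eq hv, h.sig_eq hw, hvg, ha, ← Matrix.mulVec_add]
    congr 1
    abel
  have hfin := unif μ Λ e he hon hsp F hFm a ?_
  · exact hFpos.ne' hfin
  intro E hE
  have hmeas : Measurable (fun x : Fin d → ℝ => x + a) := by fun_prop
  have h1 : μ ((fun x => x + a) ⁻¹' E ∩ F)
      ≤ ((B.card : ENNReal)⁻¹) ^ k * μ (sig φ w1 ⁻¹' E) := by
    rw [h.measure_eq k ((hmeas hE).inter hFm)]
    gcongr
    rw [Finset.sum_eq_single w]
    · apply measure_mono
      intro x hx
      have hx1 : sig φ w x + a ∈ E := hx.1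
      rw [← htr w1 hw1 rfl] at hx1
      exact hx1
    · intro v hv hvw
      exact hnull v hv hvw _
    · intro hcon
      exact absurd hw hcon
  have h2 : μ (sig φ w2 ⁻¹' E) = μ (sig φ w1 ⁻¹' E) := by
    have : sig φ w2 = sig φ w1 := by
      ext x : 1
      rw [htr w1 hw1 rfl, htr w2 hw2 hcol.symm]
    rw [this]
  have h3 : ((B.card : ENNReal)⁻¹) ^ k * (μ (sig φ w1 ⁻¹' E) + μ (sig φ w2 ⁻¹' E)) ≤ μ E := by
    rw [h.measure_eq k hE]
    gcongr
    rw [← Finset.sum_pair (f := fun v => μ (sig φ v ⁻¹' E)) hne]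
    apply Finset.sum_le_sum_of_subset
    intro v hv
    simp only [Finset.mem_insert, Finset.mem_singleton] at hv
    rcases hv with rfl | rfl
    · exact hw1
    · exact hw2
  calc 2 * μ ((fun x => x + a) ⁻¹' E ∩ F)
      ≤ 2 * (((B.card : ENNReal)⁻¹) ^ k * μ (sig φ w1 ⁻¹' E)) := by gcongr
    _ = ((B.card : ENNReal)⁻¹) ^ k * (μ (sig φ w1 ⁻¹' E) + μ (sig φ w2 ⁻¹' E)) := by
        rw [h2, ← two_mul]
        ring
    _ ≤ μ E := h3

open Classical in
/-- If different words of the same length have different integer vectors then the number of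
pieces of any level that contain a point is bounded. -/
theorem SA.bounded_mult (h : SA R B φ μ) {T : Set (Fin d → ℝ)} (hTc : IsCompact T)
    (hinj : ∀ k, Set.InjOn (gam R) (words B k : Set _)) :
    ∃ M : ℕ, ∀ k x, ((words B k).filter (fun v => x ∈ sig φ v '' T)).card ≤ M := by
  classical
  obtain ⟨C, hC⟩ := hTc.isBounded.exists_norm_le
  set K : ℤ := ⌈C⌉ + 1 with hK
  set box : Finset (Fin d → ℤ) := Fintype.piFinset (fun _ => Finset.Icc (-K) K) with hbox
  refine ⟨box.card, fun k x => ?_⟩
  set Rr := R.map (Int.castRingHom ℝ) with hRr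
  set A := Rr⁻¹ with hA
  have hRA : Rr * A = 1 := Matrix.mul_nonsing_inv _ h.det_real
  have hRAk : Rr ^ k * A ^ k = 1 := by
    rw [← (show Commute Rr A from by
      rw [commute_iff_eq, hRA, Matrix.nonsing_inv_mul _ h.det_real]).mul_pow, hRA, one_pow]
  set y : Fin d → ℝ := (Rr ^ k) *ᵥ x with hy
  apply Finset.card_le_card_of_injOn (fun v => fun i => ⌊y i⌋ - gam R v i)
  · intro v hv
    have hv' : v ∈ (words B k).filter (fun v => x ∈ sig φ v '' T) := hv
    rw [Finset.mem_filter] at hv'
    obtain ⟨hvw, t, ht, htx⟩ := hv'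
    show (fun i => ⌊y i⌋ - gam R v i) ∈ (box : Set _)
    rw [Finset.mem_coe, hbox, Fintype.mem_piFinset]
    intro i
    have h1 : y i = t i + (gam R v i : ℝ) := by
      rw [hy, ← htx, h.sig_eq hvw, Matrix.mulVec_mulVec, hRAk, Matrix.one_mulVec]
      rfl
    have h2 : |t i| ≤ C := by
      have := hC t ht
      exact (norm_le_pi_norm t i).trans this
    rw [abs_le] at h2
    have h3 : (⌊y i⌋ : ℝ) ≤ y i := Int.floor_le _
    have h4 : y i < (⌊y i⌋ : ℝ) + 1 := Int.lt_floor_add_one _
    have h5 : C ≤ (⌈C⌉ : ℝ) := Int.le_ceil _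
    rw [Finset.mem_Icc]
    constructor
    · have : (-(K : ℝ)) ≤ ((⌊y i⌋ - gam R v i : ℤ) : ℝ) := by
        push_cast [hK]
        linarith
      exact_mod_cast this
    · have : ((⌊y i⌋ - gam R v i : ℤ) : ℝ) ≤ (K : ℝ) := by
        push_cast [hK]
        linarith
      exact_mod_cast this
  · intro v hv v' hv' heq
    have hv1 : v ∈ words B k := (Finset.mem_filter.mp hv).1
    have hv2 : v' ∈ words B k := (Finset.mem_filter.mp hv').1
    apply hinj k hv1 hv2
    ext i
    have := congrFun heq i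
    simp only at this
    omega

/-- No overlap. -/
theorem SA.no_overlap (h : SA R B φ μ) {T : Set (Fin d → ℝ)} (hTc : IsCompact T)
    (hT : T = ⋃ b ∈ B, φ b '' T)
    (hinj : ∀ k, Set.InjOn (gam R) (words B k : Set _)) {b b' : Fin d → ℤ} (hb : b ∈ B)
    (hb' : b' ∈ B) (hne : b ≠ b') : μ (φ b '' T ∩ φ b' '' T) = 0 := by
  classical
  have hp := h.hp
  obtain ⟨M, hM⟩ := h.bounded_mult hTc hinj
  set O := φ b '' T ∩ φ b' '' T with hO
  have hOc : IsCompact O :=
    (hTc.image (h.continuous_phi b)).inter (hTc.image (h.continuous_phi b'))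
  have hTm : ∀ w, MeasurableSet (sig φ w '' T) := fun w =>
    (hTc.image (h.continuous_sig w)).isClosed.measurableSet
  have hOm : ∀ w, MeasurableSet (sig φ w '' O) := fun w =>
    (hOc.image (h.continuous_sig w)).isClosed.measurableSet
  have hone : ∀ (k : ℕ), ∀ w ∈ words B k, ((B.card : ENNReal)⁻¹) ^ k * μ O ≤ μ (sig φ w '' O) := by
    intro k w hw
    rw [h.measure_eq k (hOm w)]
    gcongr
    refine le_trans ?_ (Finset.single_le_sum (f := fun v => μ (sig φ v ⁻¹' (sig φ w '' O)))
      (fun _ _ => zero_le) hw)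
    rw [Set.preimage_image_eq _ (h.sig_injective w)]
  -- the multiplicity function
  let n : ℕ → (Fin d → ℝ) → ENNReal := fun k x => ∑ w ∈ words B k, (sig φ w '' T).indicator 1 x
  have hn_le : ∀ k x, n k x ≤ M := by
    intro k x
    have h1 : n k x = (((words B k).filter (fun v => x ∈ sig φ v '' T)).card : ENNReal) := by
      simp only [n, Set.indicator_apply, Pi.one_apply]
      rw [Finset.sum_ite, Finset.sum_const_zero, add_zero, Finset.sum_const, nsmul_eq_mul, mul_one]
    rw [h1]
    exact_mod_cast hM k x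
  have hn_int : ∀ k, ∫⁻ x, n k x ∂μ = ∑ w ∈ words B k, μ (sig φ w '' T) := by
    intro k
    simp only [n]
    rw [lintegral_finsetSum]
    · apply Finset.sum_congr rfl
      intro w _
      rw [lintegral_indicator_one (hTm w)]
    · intro w _
      exact measurable_one.indicator (hTm w)
  have hstep : ∀ k, (∑ w ∈ words B k, μ (sig φ w '' T)) + μ O
      ≤ ∑ w ∈ words B (k + 1), μ (sig φ w '' T) := by
    intro k
    have h1 : μ O ≤ ∑ w ∈ words B k, μ (sig φ w '' O) := by
      calc μ O = ((B.card : ENNReal)⁻¹) ^ k * ∑ _w ∈ words B k, μ O := (inv_card_mul h k _).symm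
        _ = ∑ w ∈ words B k, ((B.card : ENNReal)⁻¹) ^ k * μ O := by rw [Finset.mul_sum]
        _ ≤ _ := Finset.sum_le_sum (fun w hw => hone k w hw)
    rw [sum_words_succ]
    calc (∑ w ∈ words B k, μ (sig φ w '' T)) + μ O
        ≤ (∑ w ∈ words B k, μ (sig φ w '' T)) + ∑ w ∈ words B k, μ (sig φ w '' O) := by gcongr
      _ = ∑ w ∈ words B k, (μ (sig φ w '' T) + μ (sig φ w '' O)) := by
          rw [Finset.sum_add_distrib]
      _ ≤ ∑ w ∈ words B k, ∑ c ∈ B, μ (sig φ (c :: w) '' T) := by
          apply Finset.sum_le_sum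
          intro w _
          have e1 : μ (sig φ w '' T) + μ (sig φ w '' O)
              = ∫⁻ x, ((sig φ w '' T).indicator 1 x + (sig φ w '' O).indicator 1 x) ∂μ := by
            rw [lintegral_add_left (measurable_one.indicator (hTm w)),
              lintegral_indicator_one (hTm w), lintegral_indicator_one (hOm w)]
          have e2 : ∑ c ∈ B, μ (sig φ (c :: w) '' T)
              = ∫⁻ x, ∑ c ∈ B, (sig φ (c :: w) '' T).indicator 1 x ∂μ := by
            rw [lintegral_finsetSum]
            · apply Finset.sum_congr rfl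
              intro c _
              rw [lintegral_indicator_one (hTm _)]
            · intro c _
              exact measurable_one.indicator (hTm _)
          rw [e1, e2]
          apply lintegral_mono
          intro x
          have himg : ∀ c, sig φ (c :: w) '' T = sig φ w '' (φ c '' T) := by
            intro c
            rw [Set.image_image]
            rfl
          have hnn : ∀ c ∈ B, (0 : ENNReal) ≤ (sig φ (c :: w) '' T).indicator 1 x :=
            fun _ _ => zero_le
          by_cases hxO : x ∈ sig φ w '' O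
          · have hx1 : x ∈ sig φ (b :: w) '' T := by
              rw [himg]
              exact Set.image_mono Set.inter_subset_left hxO
            have hx2 : x ∈ sig φ (b' :: w) '' T := by
              rw [himg]
              exact Set.image_mono Set.inter_subset_right hxO
            have hle : ∑ c ∈ {b, b'}, (sig φ (c :: w) '' T).indicator
                  (1 : (Fin d → ℝ) → ENNReal) x
                ≤ ∑ c ∈ B, (sig φ (c :: w) '' T).indicator 1 x := by
              apply Finset.sum_le_sum_of_subset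
              intro c hc
              simp only [Finset.mem_insert, Finset.mem_singleton] at hc
              rcases hc with rfl | rfl
              · exact hb
              · exact hb'
            rw [Finset.sum_pair hne, Set.indicator_of_mem hx1, Set.indicator_of_mem hx2] at hle
            refine le_trans ?_ hle
            apply add_le_add
            · exact Set.indicator_apply_le' (fun _ => le_refl _) (fun _ => zero_le)
            · exact Set.indicator_apply_le' (fun _ => le_refl _) (fun _ => zero_le)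
          · simp only [Set.indicator_of_notMem hxO, add_zero]
            by_cases hxT : x ∈ sig φ w '' T
            · obtain ⟨t, ht, rfl⟩ := hxT
              have ht' := ht
              rw [hT] at ht'
              simp only [Set.mem_iUnion] at ht'
              obtain ⟨c, hc, hct⟩ := ht'
              have hx1 : sig φ w t ∈ sig φ (c :: w) '' T := by
                rw [himg]
                exact ⟨t, hct, rfl⟩
              refine le_trans ?_ (Finset.single_le_sum hnn hc)
              rw [Set.indicator_of_mem hx1]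
              exact Set.indicator_apply_le' (fun _ => le_refl _) (fun _ => zero_le)
            · rw [Set.indicator_of_notMem hxT]
              exact zero_le
  have hgrow : ∀ k : ℕ, (k : ENNReal) * μ O ≤ ∑ w ∈ words B k, μ (sig φ w '' T) := by
    intro k
    induction k with
    | zero => simp
    | succ k ih =>
      refine le_trans ?_ (hstep k)
      push_cast
      rw [add_mul, one_mul]
      gcongr
  have hbd : ∀ k : ℕ, (k : ENNReal) * μ O ≤ M := by
    intro k
    refine (hgrow k).trans ?_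
    rw [← hn_int k]
    calc ∫⁻ x, n k x ∂μ ≤ ∫⁻ _x, (M : ENNReal) ∂μ := lintegral_mono (hn_le k)
      _ = M := by rw [lintegral_const, measure_univ, mul_one]
  by_contra hne0
  have hfin : μ O ≠ ⊤ := measure_ne_top μ O
  obtain ⟨k, hk⟩ := ENNReal.exists_nat_mul_gt hne0 (ENNReal.natCast_ne_top M)
  exact absurd (hbd k) (not_le.mpr hk)

end Pool.Agent.W2helper22
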