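import Mathlib

/-!
# Powers of the inverse of an expansive integer matrix tend to zero
-/

set_option autoImplicit false
open MeasureTheory Matrix Filter Topology

namespace Pool.Agent.W2helper22

attribute [local instance] Matrix.linftyOpNormedRing Matrix.linftyOpNormedAlgebra

/-- Powers of a complex matrix all of whose eigenvalues have modulus `< 1` tend to `0`
entrywise. -/
theorem pow_tendsto_zero_complex {d : ℕ} (A : Matrix (Fin d) (Fin d) ℂ)
    (h : ∀ z ∈ spectrum ℂ A, ‖z‖ < 1) (i j : Fin d) :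
    Tendsto (fun k : ℕ => (A ^ k) i j) atTop (𝓝 0) := by
  have hne : Nonempty (Fin d) := ⟨i⟩
  have : Nontrivial (Matrix (Fin d) (Fin d) ℂ) := by infer_instance
  have : CompleteSpace (Matrix (Fin d) (Fin d) ℂ) := FiniteDimensional.complete ℂ _
  have h1 : spectralRadius ℂ A < ((1 : NNReal) : ENNReal) := by
    apply spectrum.spectralRadius_lt_of_forall_lt A
    intro z hz
    have := h z hz
    exact_mod_cast this
  have h2 := spectrum.pow_nnnorm_pow_one_div_tendsto_nhds_spectralRadius A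
  obtain ⟨r, hr1, hr2⟩ := ENNReal.lt_iff_exists_nnreal_btwn.mp h1
  have hr3 : r < 1 := by exact_mod_cast hr2
  have h3 : ∀ᶠ n : ℕ in atTop, ‖A ^ n‖₊ ≤ r ^ n := by
    filter_upwards [h2.eventually (gt_mem_nhds hr1), eventually_gt_atTop 0] with n hn hn0
    have hn0' : (n : ℝ) ≠ 0 := by positivity
    have h4 : ((‖A ^ n‖₊ : ENNReal) ^ (1 / (n : ℝ))) ^ (n : ℝ) ≤ (r : ENNReal) ^ (n : ℝ) := by
      apply ENNReal.rpow_le_rpow hn.le (by positivity)
    rw [← ENNReal.rpow_mul, one_div, inv_mul_cancel₀ hn0', ENNReal.rpow_one,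
      ENNReal.rpow_natCast] at h4
    exact_mod_cast h4
  have h5 : Tendsto (fun n : ℕ => ((r : ℝ) ^ n)) atTop (𝓝 0) :=
    tendsto_pow_atTop_nhds_zero_of_lt_one r.2 (by exact_mod_cast hr3)
  apply squeeze_zero_norm' _ h5
  filter_upwards [h3] with n hn
  have h6 : ‖(A ^ n) i j‖₊ ≤ ‖A ^ n‖₊ := by
    rw [Matrix.linfty_opNNNorm_def]
    calc ‖(A ^ n) i j‖₊ ≤ ∑ j, ‖(A ^ n) i j‖₊ :=
          Finset.single_le_sum (f := fun j => ‖(A ^ n) i j‖₊) (fun _ _ => zero_le)
            (Finset.mem_univ j)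
      _ ≤ _ := Finset.le_sup (f := fun i => ∑ j, ‖(A ^ n) i j‖₊) (Finset.mem_univ i)
  calc ‖(A ^ n) i j‖ ≤ (‖A ^ n‖₊ : ℝ) := by exact_mod_cast h6
    _ ≤ (r : ℝ) ^ n := by exact_mod_cast hn

/-- An expansive integer matrix is invertible over a field extension. -/
theorem det_ne_zero {d : ℕ} (R : Matrix (Fin d) (Fin d) ℤ)
    (hR : ∀ z : ℂ, (R.map (Int.castRingHom ℂ)).charpoly.IsRoot z → 1 < ‖z‖) :
    R.det ≠ 0 := by
  intro h0
  have h1 : (R.map (Int.castRingHom ℂ)).det = 0 := by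
    have := RingHom.map_det (Int.castRingHom ℂ) R
    rw [h0] at this
    simpa using this.symm
  have h2 : (R.map (Int.castRingHom ℂ)).charpoly.IsRoot 0 := by
    rw [Polynomial.IsRoot.def, Matrix.eval_charpoly, map_zero, zero_sub, Matrix.det_neg, h1,
      mul_zero]
  have := hR 0 h2
  simp at this
  linarith

/-- Powers of the inverse of an expansive integer matrix tend to `0`. -/
theorem inv_pow_tendsto_zero {d : ℕ} (R : Matrix (Fin d) (Fin d) ℤ)
    (hR : ∀ z : ℂ, (R.map (Int.castRingHom ℂ)).charpoly.IsRoot z → 1 < ‖z‖) (i j : Fin d) :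
    Tendsto (fun k : ℕ => (((R.map (Int.castRingHom ℝ))⁻¹) ^ k) i j) atTop (𝓝 0) := by
  have hdet := det_ne_zero R hR
  set Rc := R.map (Int.castRingHom ℂ) with hRc
  set Rr := R.map (Int.castRingHom ℝ) with hRr
  have hdc : Rc.det ≠ 0 := by
    have := RingHom.map_det (Int.castRingHom ℂ) R
    rw [hRc, ← RingHom.mapMatrix_apply, ← this]
    simpa using hdet
  have hdr : Rr.det ≠ 0 := by
    have := RingHom.map_det (Int.castRingHom ℝ) R
    rw [hRr, ← RingHom.mapMatrix_apply, ← this]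
    simpa using hdet
  have hmap : Rc⁻¹ = (Rr⁻¹).map Complex.ofRealHom := by
    have h1 : Rc = Rr.map Complex.ofRealHom := by
      ext a b; simp [hRc, hRr]
    rw [Matrix.inv_eq_left_inv]
    rw [h1, ← RingHom.mapMatrix_apply, ← RingHom.mapMatrix_apply, ← map_mul,
      Matrix.nonsing_inv_mul _ (isUnit_iff_ne_zero.mpr hdr), map_one]
  have hspec : ∀ z ∈ spectrum ℂ (Rc⁻¹), ‖z‖ < 1 := by
    intro z hz
    have hunit : IsUnit Rc := (Matrix.isUnit_iff_isUnit_det _).mpr (isUnit_iff_ne_zero.mpr hdc)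
    obtain ⟨u, hu⟩ := hunit
    have hu' : Rc⁻¹ = ((u⁻¹ : (Matrix (Fin d) (Fin d) ℂ)ˣ) : Matrix (Fin d) (Fin d) ℂ) := by
      rw [← hu, Matrix.coe_units_inv]
    have hz0 : z ≠ 0 := by
      rintro rfl
      rw [spectrum.zero_mem_iff] at hz
      exact hz (by rw [hu']; exact Units.isUnit _)
    have h2 : z⁻¹ ∈ spectrum ℂ Rc := by
      rw [hu'] at hz
      rw [← hu]
      have := (spectrum.inv_mem_iff (r := Units.mk0 z hz0) (a := u⁻¹)).mp hz
      simpa using this
    rw [Matrix.mem_spectrum_iff_isRoot_charpoly] at h2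
    have h3 := hR _ h2
    rw [norm_inv] at h3
    have hzp : 0 < ‖z‖ := norm_pos_iff.mpr hz0
    exact (one_lt_inv₀ hzp).mp h3
  have h1 := pow_tendsto_zero_complex (Rc⁻¹) hspec i j
  have h2 : ∀ k : ℕ, ((Rc⁻¹) ^ k) i j = ((((Rr⁻¹) ^ k) i j : ℝ) : ℂ) := by
    intro k
    rw [hmap, ← RingHom.mapMatrix_apply, ← map_pow]
    simp
  simp only [h2] at h1
  have h3 := (Complex.continuous_re.tendsto _).comp h1
  exact h3

end Pool.Agent.W2helper22
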