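import Mathlib

/-!
# Uniformity of spectral measures

If `μ` is a spectral probability measure, `F` a measurable set, `a` a vector, and the translate by `a`
of the restriction of `μ` to `F` is at most half of `μ`, then `μ F = 0`.
-/

set_option autoImplicit false
open MeasureTheory Matrix Filter Topology

namespace Pool.Agent.W2helper22

/-- Two vectors of a Hilbert space whose coefficients with respect to a complete orthonormal
family have the same moduli have the same norm. -/
theorem norm_eq_of_coeff {E : Type*} [NormedAddCommGroup E] [InnerProductSpace ℂ E]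
    [CompleteSpace E] {ι : Type*} (e : ι → E) (hon : Orthonormal ℂ e)
    (hsp : (Submodule.span ℂ (Set.range e)).topologicalClosure = ⊤) (x y : E)
    (h : ∀ i, ‖inner ℂ (e i) x‖ = ‖inner ℂ (e i) y‖) : ‖x‖ = ‖y‖ := by
  let b := HilbertBasis.mk hon (le_of_eq hsp.symm)
  have hb : ∀ i, b i = e i := fun i => by
    simp [b]
  have h2 : (0 : ℝ) < (2 : ENNReal).toReal := by norm_num
  have h3 : ∀ z : E, ‖z‖ ^ (2 : ENNReal).toReal
      = ∑' i, ‖inner ℂ (e i) z‖ ^ (2 : ENNReal).toReal := by
    intro z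
    rw [← b.repr.norm_map z, lp.norm_rpow_eq_tsum h2]
    congr 1
    ext i
    rw [HilbertBasis.repr_apply_apply, hb]
  have h4 : ‖x‖ ^ (2 : ENNReal).toReal = ‖y‖ ^ (2 : ENNReal).toReal := by
    rw [h3 x, h3 y]
    congr 1
    ext i
    rw [h i]
  exact (Real.rpow_left_inj (norm_nonneg _) (norm_nonneg _) h2.ne').mp h4

/-- The exponential with frequency `l`. -/
noncomputable def expo {d : ℕ} (l x : Fin d → ℝ) : ℂ :=
  Complex.exp (2 * Real.pi * Complex.I * ((∑ i, l i * x i : ℝ) : ℂ))

theorem continuous_expo {d : ℕ} (l : Fin d → ℝ) : Continuous (expo l) := by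
  unfold expo
  fun_prop

theorem norm_expo {d : ℕ} (l x : Fin d → ℝ) : ‖expo l x‖ = 1 := by
  unfold expo
  have : (2 * Real.pi * Complex.I * ((∑ i, l i * x i : ℝ) : ℂ))
      = ((2 * Real.pi * (∑ i, l i * x i) : ℝ) : ℂ) * Complex.I := by
    push_cast; ring
  rw [this, Complex.norm_exp_ofReal_mul_I]

theorem expo_add {d : ℕ} (l x y : Fin d → ℝ) : expo l (x + y) = expo l x * expo l y := by
  unfold expo
  rw [← Complex.exp_add]
  congr 1
  push_cast
  simp only [Pi.add_apply, Complex.ofReal_add, mul_add, Finset.sum_add_distrib]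

theorem unif {d : ℕ} (μ : Measure (Fin d → ℝ)) [IsProbabilityMeasure μ]
    (Λ : Set (Fin d → ℝ)) (e : Λ → Lp ℂ 2 μ)
    (he : ∀ l : Λ, (e l : (Fin d → ℝ) → ℂ) =ᵐ[μ] expo (l : Fin d → ℝ))
    (hon : Orthonormal ℂ e)
    (hsp : (Submodule.span ℂ (Set.range e)).topologicalClosure = ⊤)
    (F : Set (Fin d → ℝ)) (hF : MeasurableSet F) (a : Fin d → ℝ)
    (h : ∀ E : Set (Fin d → ℝ), MeasurableSet E → 2 * μ ((fun x => x + a) ⁻¹' E ∩ F) ≤ μ E) :
    μ F = 0 := by
  have hmeas : Measurable (fun x : Fin d → ℝ => x + a) := by fun_prop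
  set ν : Measure (Fin d → ℝ) := (μ.restrict F).map (fun x => x + a) with hν
  have hνE : ∀ E, MeasurableSet E → ν E = μ ((fun x => x + a) ⁻¹' E ∩ F) := by
    intro E hE
    rw [hν, Measure.map_apply hmeas hE, Measure.restrict_apply (hmeas hE)]
  have hfin : IsFiniteMeasure ν := by
    rw [hν]; infer_instance
  have hsf : SFinite ν := inferInstance
  have hsg : SigmaFinite μ := inferInstance
  have hleb : ν.HaveLebesgueDecomposition μ := Measure.haveLebesgueDecomposition_of_sigmaFinite ν μ
  have hac : ν ≪ μ := by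
    refine Measure.AbsolutelyContinuous.mk (fun E hE h0 => ?_)
    have := h E hE
    rw [h0, ← hνE E hE] at this
    simpa using this
  set g := ν.rnDeriv μ with hg
  have hgm : Measurable g := Measure.measurable_rnDeriv _ _
  have hgν : μ.withDensity g = ν := Measure.withDensity_rnDeriv_eq _ _ hac
  have hg2 : ∀ᵐ x ∂μ, g x ≤ 2⁻¹ := by
    apply ae_le_of_forall_setLIntegral_le_of_sigmaFinite hgm
    intro E hE _
    rw [← withDensity_apply _ hE, hgν, setLIntegral_const, hνE E hE]
    have := h E hE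
    calc μ ((fun x => x + a) ⁻¹' E ∩ F)
        = 2⁻¹ * (2 * μ ((fun x => x + a) ⁻¹' E ∩ F)) := by
          rw [← mul_assoc, ENNReal.inv_mul_cancel (by norm_num) (by norm_num), one_mul]
      _ ≤ 2⁻¹ * μ E := by gcongr
  -- the two functions
  set h1 : Lp ℂ 2 μ := indicatorConstLp 2 hF (measure_ne_top μ F) (1 : ℂ) with hh1
  have hgr : ∀ᵐ x ∂μ, ‖((g x).toReal : ℂ)‖ ≤ 2⁻¹ := by
    filter_upwards [hg2] with x hx
    rw [Complex.norm_real, Real.norm_eq_abs, abs_of_nonneg ENNReal.toReal_nonneg]
    have := ENNReal.toReal_mono (by norm_num) hx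
    simpa using this
  have hgm' : AEStronglyMeasurable (fun x => ((g x).toReal : ℂ)) μ :=
    (Complex.measurable_ofReal.comp hgm.ennreal_toReal).aestronglyMeasurable
  have hmem : MemLp (fun x => ((g x).toReal : ℂ)) 2 μ := MemLp.of_bound hgm' _ hgr
  set h2 : Lp ℂ 2 μ := hmem.toLp with hh2
  have hcoef : ∀ l : Λ, inner ℂ (e l) h2 = (starRingEnd ℂ) (expo (l : Fin d → ℝ) a)
      * inner ℂ (e l) h1 := by
    intro l
    rw [L2.inner_def, L2.inner_def]
    have e1 : (∫ x, inner ℂ ((e l : (Fin d → ℝ) → ℂ) x) ((h2 : (Fin d → ℝ) → ℂ) x) ∂μ)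
        = ∫ x, ((g x).toReal) • ((starRingEnd ℂ) (expo (l : Fin d → ℝ) x)) ∂μ := by
      apply integral_congr_ae
      filter_upwards [he l, hmem.coeFn_toLp] with x hx hx2
      rw [hx, hx2]
      simp [RCLike.inner_apply]
    have e2 : (∫ x, inner ℂ ((e l : (Fin d → ℝ) → ℂ) x) ((h1 : (Fin d → ℝ) → ℂ) x) ∂μ)
        = ∫ x in F, ((starRingEnd ℂ) (expo (l : Fin d → ℝ) x)) ∂μ := by
      rw [← integral_indicator hF]
      apply integral_congr_ae
      filter_upwards [he l, indicatorConstLp_coeFn (p := 2) (hs := hF)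
        (hμs := measure_ne_top μ F) (c := (1 : ℂ))] with x hx hx2
      rw [hx, hh1, hx2]
      by_cases hxF : x ∈ F
      · simp [hxF, RCLike.inner_apply]
      · simp [hxF, RCLike.inner_apply]
    rw [e1, e2]
    have e3 : (∫ x, ((g x).toReal) • ((starRingEnd ℂ) (expo (l : Fin d → ℝ) x)) ∂μ)
        = ∫ x, ((starRingEnd ℂ) (expo (l : Fin d → ℝ) x)) ∂ν := by
      rw [← hgν, integral_withDensity_eq_integral_toReal_smul hgm]
      filter_upwards [hg2] with x hx
      exact lt_of_le_of_lt hx (by norm_num)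
    rw [e3, hν, integral_map hmeas.aemeasurable]
    · rw [← integral_const_mul]
      apply integral_congr_ae
      refine Eventually.of_forall (fun x => ?_)
      simp only [expo_add, map_mul]
      ring
    · exact (Complex.continuous_conj.comp (continuous_expo _)).aestronglyMeasurable
  have hnorm : ‖h1‖ = ‖h2‖ := by
    apply norm_eq_of_coeff e hon hsp
    intro l
    rw [hcoef l, norm_mul, RCLike.norm_conj, norm_expo, one_mul]
  have hn1 : ‖h1‖ ^ 2 = (μ F).toReal := by
    rw [hh1, norm_indicatorConstLp (by norm_num) (by norm_num)]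
    simp only [norm_one, one_mul, Measure.real]
    rw [← Real.rpow_natCast, ← Real.rpow_mul ENNReal.toReal_nonneg]
    norm_num
  have hn2 : ‖h2‖ ^ 2 ≤ 2⁻¹ * (μ F).toReal := by
    have e1 : ‖h2‖ ^ 2 = ∫ x, (g x).toReal ^ 2 ∂μ := by
      have e2 : ((‖h2‖ ^ 2 : ℝ) : ℂ) = inner ℂ h2 h2 := by
        rw [inner_self_eq_norm_sq_to_K]; simp
      have e3 : inner ℂ h2 h2 = ((∫ x, (g x).toReal ^ 2 ∂μ : ℝ) : ℂ) := by
        rw [L2.inner_def, ← integral_complex_ofReal]
        apply integral_congr_ae
        filter_upwards [hmem.coeFn_toLp] with x hx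
        rw [hh2, hx]
        simp [sq]
      rw [e3] at e2
      exact_mod_cast e2
    have hint : Integrable (fun x => (g x).toReal) μ := by
      apply Integrable.of_bound hgm.ennreal_toReal.aestronglyMeasurable (2⁻¹ : ℝ)
      filter_upwards [hgr] with x hx
      rwa [Complex.norm_real] at hx
    have e4 : ∫ x, (g x).toReal ^ 2 ∂μ ≤ ∫ x, 2⁻¹ * (g x).toReal ∂μ := by
      apply integral_mono_ae
      · apply Integrable.of_bound (hgm.ennreal_toReal.pow_const 2).aestronglyMeasurable (1 : ℝ)
        filter_upwards [hgr] with x hx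
        rw [Complex.norm_real, Real.norm_eq_abs] at hx
        rw [Real.norm_eq_abs, abs_pow]
        nlinarith [abs_nonneg ((g x).toReal)]
      · exact hint.const_mul _
      · filter_upwards [hgr] with x hx
        rw [Complex.norm_real, Real.norm_eq_abs, abs_of_nonneg ENNReal.toReal_nonneg] at hx
        have h0 : 0 ≤ (g x).toReal := ENNReal.toReal_nonneg
        show (g x).toReal ^ 2 ≤ 2⁻¹ * (g x).toReal
        nlinarith
    have e5 : ∫ x, (g x).toReal ∂μ = (μ F).toReal := by
      rw [integral_toReal hgm.aemeasurable]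
      · congr 1
        rw [← setLIntegral_univ, ← withDensity_apply _ MeasurableSet.univ, hgν,
          hνE _ MeasurableSet.univ]
        simp
      · filter_upwards [hg2] with x hx
        exact lt_of_le_of_lt hx (by norm_num)
    rw [e1]
    calc _ ≤ _ := e4
      _ = 2⁻¹ * (μ F).toReal := by rw [integral_const_mul, e5]
  rw [← hnorm, hn1] at hn2
  have hz : (μ F).toReal = 0 := by
    have : 0 ≤ (μ F).toReal := ENNReal.toReal_nonneg
    linarith
  rcases (ENNReal.toReal_eq_zero_iff _).mp hz with h0 | h0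
  · exact h0
  · exact absurd h0 (measure_ne_top μ F)

end Pool.Agent.W2helper22
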