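import Pool.Agent.W2helper22.SpecContr
import Pool.Agent.W2helper22.SpecUnif

/-!
# Words in a self-affine system, and absence of overlap of spectral self-affine measures
-/

set_option autoImplicit false
open MeasureTheory Matrix Filter Topology

namespace Pool.Agent.W2helper22

variable {d : ℕ}

/-- The composition of maps given by a word. -/
def sig (φ : (Fin d → ℤ) → (Fin d → ℝ) → (Fin d → ℝ)) :
    List (Fin d → ℤ) → (Fin d → ℝ) → (Fin d → ℝ)
  | [] => id
  | b :: w => fun x => sig φ w (φ b x)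

/-- The integer vector of a word. -/
def gam (R : Matrix (Fin d) (Fin d) ℤ) : List (Fin d → ℤ) → (Fin d → ℤ)
  | [] => 0
  | b :: w => b + R *ᵥ gam R w

/-- The words of length `k`. -/
noncomputable def words (B : Finset (Fin d → ℤ)) : ℕ → Finset (List (Fin d → ℤ))
  | 0 => {[]}
  | k + 1 => (B ×ˢ words B k).image (fun p => p.1 :: p.2)

theorem mem_words_succ {B : Finset (Fin d → ℤ)} {k : ℕ} {v : List (Fin d → ℤ)} :
    v ∈ words B (k + 1) ↔ ∃ b ∈ B, ∃ w ∈ words B k, v = b :: w := by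
  simp only [words, Finset.mem_image, Finset.mem_product, Prod.exists]
  constructor
  · rintro ⟨b, w, ⟨hb, hw⟩, rfl⟩
    exact ⟨b, hb, w, hw, rfl⟩
  · rintro ⟨b, hb, w, hw, rfl⟩
    exact ⟨b, w, ⟨hb, hw⟩, rfl⟩

theorem sum_words_succ {B : Finset (Fin d → ℤ)} {k : ℕ} {M : Type*} [AddCommMonoid M]
    (f : List (Fin d → ℤ) → M) :
    ∑ v ∈ words B (k + 1), f v = ∑ w ∈ words B k, ∑ b ∈ B, f (b :: w) := by
  simp only [words]
  rw [Finset.sum_image, Finset.sum_product_right]
  rintro ⟨b, w⟩ _ ⟨b', w'⟩ _ h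
  simp only [List.cons.injEq] at h
  rw [h.1, h.2]

theorem card_words (B : Finset (Fin d → ℤ)) (k : ℕ) : (words B k).card = B.card ^ k := by
  induction k with
  | zero => simp [words]
  | succ k ih =>
    rw [Finset.card_eq_sum_ones, sum_words_succ]
    simp [ih, pow_succ]

/-- Data of a self-affine system with expansive integer matrix. -/
structure SA (R : Matrix (Fin d) (Fin d) ℤ) (B : Finset (Fin d → ℤ))
    (φ : (Fin d → ℤ) → (Fin d → ℝ) → (Fin d → ℝ)) (μ : Measure (Fin d → ℝ)) : Prop where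
  hR : ∀ z : ℂ, (R.map (Int.castRingHom ℂ)).charpoly.IsRoot z → 1 < ‖z‖
  hφ : ∀ b x, φ b x = (R.map (Int.castRingHom ℝ))⁻¹ *ᵥ (x + fun i => (b i : ℝ))
  hp : IsProbabilityMeasure μ
  hμ : μ = ∑ b ∈ B, ((B.card : ENNReal)⁻¹) • μ.map (φ b)

variable {R : Matrix (Fin d) (Fin d) ℤ} {B : Finset (Fin d → ℤ)}
  {φ : (Fin d → ℤ) → (Fin d → ℝ) → (Fin d → ℝ)} {μ : Measure (Fin d → ℝ)}

theorem SA.det_real (h : SA R B φ μ) : IsUnit (R.map (Int.castRingHom ℝ)).det := by
  have hdet := det_ne_zero R h.hR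
  have := RingHom.map_det (Int.castRingHom ℝ) R
  rw [← RingHom.mapMatrix_apply, ← this, isUnit_iff_ne_zero]
  simpa using hdet

theorem SA.continuous_phi (h : SA R B φ μ) (b : Fin d → ℤ) : Continuous (φ b) := by
  have : φ b = fun x => (R.map (Int.castRingHom ℝ))⁻¹ *ᵥ (x + fun i => (b i : ℝ)) :=
    funext (h.hφ b)
  rw [this]
  fun_prop

theorem SA.phi_injective (h : SA R B φ μ) (b : Fin d → ℤ) : Function.Injective (φ b) := by
  intro x y hxy
  rw [h.hφ, h.hφ] at hxy
  have h1 : ((R.map (Int.castRingHom ℝ)) * (R.map (Int.castRingHom ℝ))⁻¹) *ᵥ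
      (x + fun i => (b i : ℝ)) = ((R.map (Int.castRingHom ℝ)) * (R.map (Int.castRingHom ℝ))⁻¹) *ᵥ
      (y + fun i => (b i : ℝ)) := by
    rw [← Matrix.mulVec_mulVec, ← Matrix.mulVec_mulVec, hxy]
  rw [Matrix.mul_nonsing_inv _ h.det_real, Matrix.one_mulVec, Matrix.one_mulVec] at h1
  exact add_right_cancel h1

theorem SA.continuous_sig (h : SA R B φ μ) (w : List (Fin d → ℤ)) : Continuous (sig φ w) := by
  induction w with
  | nil => exact continuous_id
  | cons b w ih => exact ih.comp (h.continuous_phi b)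

theorem SA.sig_injective (h : SA R B φ μ) (w : List (Fin d → ℤ)) :
    Function.Injective (sig φ w) := by
  induction w with
  | nil => exact Function.injective_id
  | cons b w ih => exact ih.comp (h.phi_injective b)

theorem SA.sig_eq (h : SA R B φ μ) {k : ℕ} {w : List (Fin d → ℤ)} (hw : w ∈ words B k)
    (x : Fin d → ℝ) :
    sig φ w x = ((R.map (Int.castRingHom ℝ))⁻¹) ^ k *ᵥ (x + fun i => (gam R w i : ℝ)) := by
  induction k generalizing w x with
  | zero =>
    simp only [words, Finset.mem_singleton] at hw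
    subst hw
    simp [sig, gam]
    rfl
  | succ k ih =>
    obtain ⟨b, hb, v, hv, rfl⟩ := mem_words_succ.mp hw
    have h1 : sig φ (b :: v) x = sig φ v (φ b x) := rfl
    rw [h1, ih hv, h.hφ, pow_succ, ← Matrix.mulVec_mulVec]
    congr 1
    have h2 : (fun i => (gam R (b :: v) i : ℝ))
        = (fun i => (b i : ℝ)) + (R.map (Int.castRingHom ℝ)) *ᵥ (fun i => (gam R v i : ℝ)) := by
      ext i
      simp [gam, Matrix.mulVec, dotProduct]
    rw [h2, ← add_assoc, Matrix.mulVec_add _ (x + _), Matrix.mulVec_mulVec,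
      Matrix.nonsing_inv_mul _ h.det_real, Matrix.one_mulVec]

theorem SA.card_pos (h : SA R B φ μ) : 0 < B.card := by
  rw [Finset.card_pos]
  by_contra hne
  rw [Finset.not_nonempty_iff_eq_empty] at hne
  have h1 := h.hμ
  rw [hne, Finset.sum_empty] at h1
  have := h.hp
  have h2 : μ Set.univ = 1 := measure_univ
  rw [h1] at h2
  simp at h2

theorem SA.measure_eq_one_step (h : SA R B φ μ) {E : Set (Fin d → ℝ)} (hE : MeasurableSet E) :
    μ E = (B.card : ENNReal)⁻¹ * ∑ b ∈ B, μ (φ b ⁻¹' E) := by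
  conv_lhs => rw [h.hμ]
  rw [Measure.finsetSum_apply, Finset.mul_sum]
  apply Finset.sum_congr rfl
  intro b _
  rw [Measure.smul_apply, smul_eq_mul, Measure.map_apply (h.continuous_phi b).measurable hE]

theorem SA.measure_eq (h : SA R B φ μ) (k : ℕ) {E : Set (Fin d → ℝ)} (hE : MeasurableSet E) :
    μ E = ((B.card : ENNReal)⁻¹) ^ k * ∑ w ∈ words B k, μ (sig φ w ⁻¹' E) := by
  induction k with
  | zero => simp [words, sig]
  | succ k ih =>
    rw [ih, sum_words_succ, pow_succ, mul_assoc]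
    congr 1
    rw [Finset.mul_sum]
    apply Finset.sum_congr rfl
    intro w _
    rw [h.measure_eq_one_step ((h.continuous_sig w).measurable hE)]
    rfl

theorem inv_card_mul (h : SA R B φ μ) (k : ℕ) (c : ENNReal) :
    ((B.card : ENNReal)⁻¹) ^ k * ∑ _w ∈ words B k, c = c := by
  have h0 : (B.card : ENNReal) ≠ 0 := by
    have := h.card_pos
    simp only [ne_eq, Nat.cast_eq_zero]
    omega
  rw [Finset.sum_const, card_words, nsmul_eq_mul, ← mul_assoc, Nat.cast_pow, ← mul_pow,
    ENNReal.inv_mul_cancel h0 (ENNReal.natCast_ne_top _), one_pow, one_mul]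

/-! ### The measure lives on the attractor -/

theorem SA.exists_half (h : SA R B φ μ) : ∃ k : ℕ, ∀ w ∈ words B k, ∀ x y : Fin d → ℝ,
    dist (sig φ w x) (sig φ w y) ≤ 2⁻¹ * dist x y := by
  set A := (R.map (Int.castRingHom ℝ))⁻¹ with hA
  have h1 : ∀ᶠ k : ℕ in atTop, ∀ i j, |(A ^ k) i j| ≤ (2 * ((d : ℝ) + 1))⁻¹ := by
    rw [eventually_all]
    intro i
    rw [eventually_all]
    intro j
    have h2 := inv_pow_tendsto_zero R h.hR i j
    have h3 : (0 : ℝ) < (2 * ((d : ℝ) + 1))⁻¹ := by positivity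
    have h4 := h2.abs
    rw [abs_zero] at h4
    filter_upwards [h4.eventually (gt_mem_nhds h3)] with k hk
    exact hk.le
  obtain ⟨k, hk⟩ := h1.exists
  refine ⟨k, fun w hw x y => ?_⟩
  rw [h.sig_eq hw, h.sig_eq hw, dist_eq_norm, dist_eq_norm, ← Matrix.mulVec_sub,
    add_sub_add_right_eq_sub, pi_norm_le_iff_of_nonneg (by positivity)]
  intro i
  rw [Matrix.mulVec, dotProduct]
  calc ‖∑ j, (A ^ k) i j * (x - y) j‖ ≤ ∑ j, ‖(A ^ k) i j * (x - y) j‖ := norm_sum_le _ _
    _ ≤ ∑ _j : Fin d, (2 * ((d : ℝ) + 1))⁻¹ * ‖x - y‖ := by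
        apply Finset.sum_le_sum
        intro j _
        rw [norm_mul]
        apply mul_le_mul (hk i j) (norm_le_pi_norm (x - y) j) (norm_nonneg _) (by positivity)
    _ = (d * (2 * ((d : ℝ) + 1))⁻¹) * ‖x - y‖ := by
        rw [Finset.sum_const, Finset.card_univ, Fintype.card_fin, nsmul_eq_mul, mul_assoc]
    _ ≤ 2⁻¹ * ‖x - y‖ := by
        gcongr
        rw [mul_inv]
        have h5 : (0 : ℝ) < (d : ℝ) + 1 := by positivity
        have h6 : (d : ℝ) * ((d : ℝ) + 1)⁻¹ ≤ 1 := by
          rw [← div_eq_mul_inv, div_le_one h5]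
          linarith
        nlinarith

theorem SA.sig_image_subset (h : SA R B φ μ) {T : Set (Fin d → ℝ)}
    (hT : T = ⋃ b ∈ B, φ b '' T) {k : ℕ} {w : List (Fin d → ℤ)} (hw : w ∈ words B k) :
    ∀ t ∈ T, sig φ w t ∈ T := by
  induction k generalizing w with
  | zero =>
    simp only [words, Finset.mem_singleton] at hw
    subst hw
    intro t ht
    exact ht
  | succ k ih =>
    obtain ⟨b, hb, v, hv, rfl⟩ := mem_words_succ.mp hw
    intro t ht
    apply ih hv
    rw [hT]
    exact Set.mem_biUnion hb ⟨t, ht, rfl⟩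

theorem SA.measure_compl (h : SA R B φ μ) {T : Set (Fin d → ℝ)} (hTc : IsCompact T)
    (hTn : T.Nonempty) (hT : T = ⋃ b ∈ B, φ b '' T) : μ Tᶜ = 0 := by
  obtain ⟨k, hk⟩ := h.exists_half
  have := h.hp
  have hm : ∀ s : ℝ, MeasurableSet {x | s < Metric.infDist x T} := fun s =>
    (isOpen_lt continuous_const (Metric.continuous_infDist_pt T)).measurableSet
  have h1 : ∀ s : ℝ, μ {x | s < Metric.infDist x T} ≤ μ {x | 2 * s < Metric.infDist x T} := by
    intro s
    rw [h.measure_eq k (hm s)]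
    calc ((B.card : ENNReal)⁻¹) ^ k * ∑ w ∈ words B k, μ (sig φ w ⁻¹' {x | s < Metric.infDist x T})
        ≤ ((B.card : ENNReal)⁻¹) ^ k * ∑ _w ∈ words B k, μ {x | 2 * s < Metric.infDist x T} := by
          gcongr with w hw
          intro x hx
          simp only [Set.mem_preimage, Set.mem_ofPred_eq] at hx ⊢
          obtain ⟨t, ht, hxt⟩ := hTc.exists_infDist_eq_dist hTn x
          have h2 := Metric.infDist_le_dist_of_mem (x := sig φ w x) (h.sig_image_subset hT hw t ht)
          have h3 := hk w hw x t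
          rw [hxt]
          linarith
      _ = _ := inv_card_mul h k _
  have h2 : ∀ s : ℝ, 0 < s → μ {x | s < Metric.infDist x T} = 0 := by
    intro s hs
    have h3 : ∀ j : ℕ, μ {x | s < Metric.infDist x T} ≤ μ {x | 2 ^ j * s < Metric.infDist x T} := by
      intro j
      induction j with
      | zero => simp
      | succ j ih =>
        refine ih.trans ((h1 _).trans (le_of_eq ?_))
        congr 1
        ext x
        simp only [Set.mem_ofPred_eq]
        rw [pow_succ, ← mul_assoc]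
        ring_nf
    have h4 : Tendsto (fun j : ℕ => μ {x | 2 ^ j * s < Metric.infDist x T}) atTop
        (𝓝 (μ (⋂ j : ℕ, {x | 2 ^ j * s < Metric.infDist x T}))) := by
      apply tendsto_measure_iInter_atTop
      · intro j
        exact (hm _).nullMeasurableSet
      · intro i j hij x hx
        simp only [Set.mem_ofPred_eq] at hx ⊢
        refine lt_of_le_of_lt ?_ hx
        have : (2 : ℝ) ^ i ≤ 2 ^ j := pow_le_pow_right₀ (by norm_num) hij
        nlinarith
      · exact ⟨0, measure_ne_top _ _⟩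
    have h5 : (⋂ j : ℕ, {x : Fin d → ℝ | 2 ^ j * s < Metric.infDist x T}) = ∅ := by
      ext x
      simp only [Set.mem_iInter, Set.mem_ofPred_eq, Set.mem_empty_iff_false, iff_false, not_forall,
        not_lt]
      obtain ⟨j, hj⟩ := pow_unbounded_of_one_lt (Metric.infDist x T / s) (one_lt_two)
      refine ⟨j, ?_⟩
      rw [div_lt_iff₀ hs] at hj
      exact hj.le
    rw [h5, measure_empty] at h4
    exact le_antisymm (ge_of_tendsto' h4 h3) (zero_le)
  have h6 : Tᶜ = ⋃ n : ℕ, {x | 1 / ((n : ℝ) + 1) < Metric.infDist x T} := by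
    ext x
    simp only [Set.mem_compl_iff, Set.mem_iUnion, Set.mem_ofPred_eq]
    constructor
    · intro hx
      have h7 : 0 < Metric.infDist x T :=
        (hTc.isClosed.notMem_iff_infDist_pos hTn).mp hx
      obtain ⟨n, hn⟩ := exists_nat_one_div_lt h7
      exact ⟨n, hn⟩
    · rintro ⟨n, hn⟩ hx
      rw [Metric.infDist_zero_of_mem hx] at hn
      have : (0 : ℝ) < 1 / ((n : ℝ) + 1) := by positivity
      linarith
  rw [h6]
  exact measure_iUnion_null (fun n => h2 _ (by positivity))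

end Pool.Agent.W2helper22
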